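import Pool.Agent.Work.MP_bb5f23_al.Bridge

/-!
Finite-dimensional Hom spaces from tensor products in the category X(G).
-/

open Pool.Agent.Work.MP_bb5f23_al Pool.Agent.Work.MP_bb5f23_al.Stmt

namespace Pool.Agent.Results.MP_bb5f23_al.FiniteHom

theorem result (p : ℕ) [Fact p.Prime] {G : Type*} [Group G] {n r : ℕ}
    (D : Frame (AlgebraicClosure (ZMod p)) G n r) (hD : D.IsDatum)
    {k : Type*} [Field k] [CharZero k]
    {M N L : Type*} [AddCommGroup M] [Module k M] [AddCommGroup N] [Module k N]
    [AddCommGroup L] [Module k L] (ρM : Representation k G M) (ρN : Representation k G N)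
    (ρL : Representation k G L) (hM : InCat D.T D.U D.U' ρM) (hN : InCat D.T D.U D.U' ρN)
    (hL : InCat D.T D.U D.U' ρL) :
    Module.Finite k ((ρM.tprod ρN).IntertwiningMap ρL) :=
  Datum.main (D.inX_of_inCat hD hM) (D.inX_of_inCat hD hN) (D.inX_of_inCat hD hL)

end Pool.Agent.Results.MP_bb5f23_al.FiniteHom
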